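import Mathlib
import Pool.Agent.H77.GR.Stm
import Pool.Agent.H77.TF.Pri

/-!
# Project GR, module DEP
-/

set_option autoImplicit false

open MvPolynomial Module Pool.Agent.H77.TF

namespace Pool.Agent.H12.GR

open Pool.Agent.H77.GR

theorem X_eq_lin {K : Type} [Field K] (t : Fin 3) :
    (X t : MvPolynomial (Fin 3) K) = lin (Pi.single t 1) := by
  classical
  unfold lin
  rw [Finset.sum_eq_single t]
  · simp
  · intro i _ hi
    rw [Pi.single_apply, if_neg hi, C_0, zero_mul]
  · intro h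
    exact absurd (Finset.mem_univ t) h

theorem not_all_X {K : Type} [Field K] (a : Fin 3 → K) (ha : a ≠ 0) :
    ¬ ∀ t : Fin 3, lin a ∣ (X t : MvPolynomial (Fin 3) K) := by
  classical
  intro h
  have h' : ∀ t : Fin 3, ∃ c : K, (Pi.single t 1 : Fin 3 → K) = c • a := fun t =>
    (pri K 3 a ha).2 _ (by rw [← X_eq_lin]; exact h t)
  obtain ⟨c0, h0⟩ := h' 0
  obtain ⟨c1, h1⟩ := h' 1
  have e00 : (1 : K) = c0 * a 0 := by simpa using congrFun h0 0
  have e10 : (0 : K) = c1 * a 0 := by simpa using congrFun h1 0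
  have e11 : (1 : K) = c1 * a 1 := by simpa using congrFun h1 1
  have ha0 : a 0 ≠ 0 := by
    intro h00
    rw [h00, mul_zero] at e00
    exact one_ne_zero e00
  have hc1 : c1 = 0 := by
    rcases mul_eq_zero.1 e10.symm with h | h
    · exact h
    · exact absurd h ha0
  rw [hc1, zero_mul] at e11
  exact one_ne_zero e11

theorem dep (hKOS : S_KOS) : S_DEP := by
  intro K _ ν A e D y hA hE hφ
  classical
  obtain ⟨b, -⟩ := hE
  choose φ hφ using hφ
  obtain ⟨k1, k2⟩ := hKOS K D
  -- the fields `z s t`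
  have hz : ∀ s t : Fin 3, (X s ^ D : MvPolynomial (Fin 3) K) • φ t - (X t ^ D : MvPolynomial (Fin 3) K) • φ s ∈ LD A := by
    intro s t i
    have e1 : evl (A i) ((X s ^ D : MvPolynomial (Fin 3) K) • φ t - (X t ^ D : MvPolynomial (Fin 3) K) • φ s) =
        X t ^ D * (X s ^ D * y i - evl (A i) (φ s)) - X s ^ D * (X t ^ D * y i - evl (A i) (φ t)) := by
      have : (X s ^ D : MvPolynomial (Fin 3) K) • φ t - (X t ^ D : MvPolynomial (Fin 3) K) • φ s =
          (X s ^ D : MvPolynomial (Fin 3) K) • φ t + (-(X t ^ D : MvPolynomial (Fin 3) K)) • φ s := by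
        rw [neg_smul, sub_eq_add_neg]
      rw [this, evl_vadd, evl_vsmul, evl_vsmul]
      ring
    rw [e1]
    exact dvd_sub ((hφ s i).mul_left _) ((hφ t i).mul_left _)
  set z : Fin 3 → Fin 3 → LD A := fun s t => ⟨_, hz s t⟩ with hzd
  have z1 : ∀ s t, z s t = - z t s := by
    intro s t
    apply Subtype.ext
    change (X s ^ D : MvPolynomial (Fin 3) K) • φ t - (X t ^ D : MvPolynomial (Fin 3) K) • φ s =
      -((X t ^ D : MvPolynomial (Fin 3) K) • φ s - (X s ^ D : MvPolynomial (Fin 3) K) • φ t)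
    rw [neg_sub]
  have z2 : ∀ s, z s s = 0 := by
    intro s
    apply Subtype.ext
    change (X s ^ D : MvPolynomial (Fin 3) K) • φ s - (X s ^ D : MvPolynomial (Fin 3) K) • φ s = 0
    rw [sub_self]
  have z3 : (X 0 ^ D : MvPolynomial (Fin 3) K) • z 1 2 + (X 1 ^ D : MvPolynomial (Fin 3) K) • z 2 0 +
      (X 2 ^ D : MvPolynomial (Fin 3) K) • z 0 1 = 0 := by
    apply Subtype.ext
    change (X 0 ^ D : MvPolynomial (Fin 3) K) • ((X 1 ^ D : MvPolynomial (Fin 3) K) • φ 2 - (X 2 ^ D : MvPolynomial (Fin 3) K) • φ 1) +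
      (X 1 ^ D : MvPolynomial (Fin 3) K) • ((X 2 ^ D : MvPolynomial (Fin 3) K) • φ 0 - (X 0 ^ D : MvPolynomial (Fin 3) K) • φ 2) +
      (X 2 ^ D : MvPolynomial (Fin 3) K) • ((X 0 ^ D : MvPolynomial (Fin 3) K) • φ 1 - (X 1 ^ D : MvPolynomial (Fin 3) K) • φ 0) = 0
    funext k
    simp only [Pi.add_apply, Pi.smul_apply, Pi.sub_apply, smul_eq_mul, Pi.zero_apply]
    ring
  have hτ : ∀ j : Fin 3, ∃ τ : Fin 3 → MvPolynomial (Fin 3) K, ∀ s t,
      b.repr (z s t) j = X s ^ D * τ t - X t ^ D * τ s := by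
    intro j
    apply k2 (fun s t => b.repr (z s t) j)
    · intro s t
      change b.repr (z s t) j = - b.repr (z t s) j
      rw [z1 s t, map_neg, Finsupp.neg_apply]
    · intro s
      change b.repr (z s s) j = 0
      rw [z2, map_zero, Finsupp.zero_apply]
    · change X 0 ^ D * b.repr (z 1 2) j + X 1 ^ D * b.repr (z 2 0) j + X 2 ^ D * b.repr (z 0 1) j = 0
      have := congrArg (fun v => b.repr v j) z3
      simpa only [map_add, map_smul, Finsupp.add_apply, Finsupp.smul_apply, smul_eq_mul, map_zero,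
        Finsupp.zero_apply] using this
  choose τ hτ using hτ
  set T : Fin 3 → LD A := fun t => ∑ j, τ j t • b j with hT
  have hzT : ∀ s t, z s t = (X s ^ D : MvPolynomial (Fin 3) K) • T t - (X t ^ D : MvPolynomial (Fin 3) K) • T s := by
    intro s t
    have := b.sum_repr (z s t)
    rw [← this]
    change ∑ j, b.repr (z s t) j • b j = (X s ^ D : MvPolynomial (Fin 3) K) • (∑ j, τ j t • b j) -
      (X t ^ D : MvPolynomial (Fin 3) K) • ∑ j, τ j s • b j
    rw [Finset.smul_sum, Finset.smul_sum, ← Finset.sum_sub_distrib]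
    refine Finset.sum_congr rfl fun j _ => ?_
    rw [hτ j s t]
    apply Subtype.ext
    funext k
    change (X s ^ D * τ j t - X t ^ D * τ j s) * (b j : Fin 3 → MvPolynomial (Fin 3) K) k =
      X s ^ D * (τ j t * (b j : Fin 3 → MvPolynomial (Fin 3) K) k) -
        X t ^ D * (τ j s * (b j : Fin 3 → MvPolynomial (Fin 3) K) k)
    ring
  have hw : ∀ k : Fin 3, ∃ w' : MvPolynomial (Fin 3) K, ∀ t : Fin 3,
      φ t k - (T t : Fin 3 → MvPolynomial (Fin 3) K) k = X t ^ D * w' := by
    intro k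
    apply k1 (fun t => φ t k - (T t : Fin 3 → MvPolynomial (Fin 3) K) k)
    intro s t
    have h1 := congrArg (fun v : LD A => (v : Fin 3 → MvPolynomial (Fin 3) K) k) (hzT s t)
    have h2 : X s ^ D * φ t k - X t ^ D * φ s k =
        X s ^ D * (T t : Fin 3 → MvPolynomial (Fin 3) K) k - X t ^ D * (T s : Fin 3 → MvPolynomial (Fin 3) K) k := h1
    change X s ^ D * (φ t k - (T t : Fin 3 → MvPolynomial (Fin 3) K) k) =
      X t ^ D * (φ s k - (T s : Fin 3 → MvPolynomial (Fin 3) K) k)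
    linear_combination h2
  choose w hw using hw
  refine ⟨w, fun i => ?_⟩
  have hp := (pri K 3 (A i) (hA.1 i)).1
  have hd : ∀ t : Fin 3, lin (A i) ∣ X t ^ D * (y i - evl (A i) w) := by
    intro t
    have e1 : φ t = (X t ^ D : MvPolynomial (Fin 3) K) • w + (T t : Fin 3 → MvPolynomial (Fin 3) K) := by
      funext k
      have := hw k t
      change φ t k = X t ^ D * w k + (T t : Fin 3 → MvPolynomial (Fin 3) K) k
      linear_combination this
    have e2 : evl (A i) (φ t) = X t ^ D * evl (A i) w + evl (A i) (T t : Fin 3 → MvPolynomial (Fin 3) K) := by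
      rw [e1, evl_vadd, evl_vsmul]
    have e3 : X t ^ D * (y i - evl (A i) w) = (X t ^ D * y i - evl (A i) (φ t)) +
        evl (A i) (T t : Fin 3 → MvPolynomial (Fin 3) K) := by
      rw [e2]; ring
    rw [e3]
    exact dvd_add (hφ t i) ((T t).2 i)
  by_contra hn
  refine not_all_X (A i) (hA.1 i) fun t => ?_
  rcases hp.dvd_or_dvd (hd t) with h | h
  · exact hp.dvd_of_dvd_pow h
  · exact absurd h hn

end Pool.Agent.H12.GR
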