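import Mathlib
import Pool.Agent.H77.GQ.Stm

/-!
# Project GQ, module NUQ
-/

set_option autoImplicit false

open MvPolynomial Module Pool.Agent.H77.TF Pool.Agent.H77.GR

namespace Pool.Agent.H12.GR

open Pool.Agent.H77.GQ

theorem two_choose (k : ℕ) : (2 : ℤ) * ((k + 2).choose 2 : ℕ) = ((k : ℤ) + 2) * (k + 1) := by
  induction k with
  | zero => simp
  | succ k ih =>
    have h : (k + 1 + 2).choose 2 = (k + 2).choose 1 + (k + 2).choose 2 := Nat.choose_succ_succ' (k + 2) 1
    rw [h, Nat.choose_one_right]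
    push_cast
    push_cast at ih
    linear_combination ih

theorem nuq (hDMF : S_DMF) (hDME : S_DME) : S_NUQ := by
  intro K _ n A a b hA hE
  set H : ℤ := ∑ s : Fin n, ((s : ℕ) - hn A s : ℤ) with hH
  have key : ∀ m : ℕ, n ≤ m → 1 ≤ m → a ≤ m → b ≤ m →
      3 * (((m : ℤ) + 2) * (m + 1)) - 2 * (n * (m + 1)) + 2 * H =
        ((m : ℤ) + 1) * m + ((m : ℤ) - a + 2) * (m - a + 1) + ((m : ℤ) - b + 2) * (m - b + 1) := by
    intro m h1 h2 h3 h4
    have e1 := hDMF K n A hA m (by omega)
    have e2 := hDME K (Fin n) A ![1, a, b] hE m (by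
      intro j
      fin_cases j
      · exact h2
      · exact h3
      · exact h4)
    rw [e2, Fin.sum_univ_three] at e1
    simp only [Matrix.cons_val_zero, Matrix.cons_val_one, Matrix.cons_val] at e1
    obtain ⟨m', rfl⟩ := Nat.exists_eq_add_of_le h2
    obtain ⟨u, hu⟩ := Nat.exists_eq_add_of_le h3
    obtain ⟨w, hw⟩ := Nat.exists_eq_add_of_le h4
    have f1 : 1 + m' - 1 + 2 = m' + 2 := by omega
    have f2 : 1 + m' - a + 2 = u + 2 := by omega
    have f3 : 1 + m' - b + 2 = w + 2 := by omega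
    have f4 : 1 + m' + 2 = (m' + 1) + 2 := by omega
    rw [f1, f2, f3, f4] at e1
    have g1 := two_choose m'
    have g2 := two_choose u
    have g3 := two_choose w
    have g4 := two_choose (m' + 1)
    have hu' : (u : ℤ) = 1 + m' - a := by omega
    have hw' : (w : ℤ) = 1 + m' - b := by omega
    rw [hu'] at g2
    rw [hw'] at g3
    push_cast at e1 g1 g2 g3 g4 ⊢
    linear_combination (-2) * e1 - 3 * g4 + g1 + g2 + g3
  have k1 := key (n + a + b + 1) (by omega) (by omega) (by omega) (by omega)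
  have k2 := key (n + a + b + 2) (by omega) (by omega) (by omega) (by omega)
  push_cast at k1 k2
  have hn' : (n : ℤ) = 1 + a + b := by linarith
  refine ⟨by exact_mod_cast hn', ?_⟩
  rw [hn'] at k1
  linarith

end Pool.Agent.H12.GR
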